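import Pool.Agent.W5h90.CP.Tan2
import Pool.Agent.W5h90.CP.NotPN

/-!
The answer to Q1 is no, already for line bundles: in characteristic two, for the smooth quadric
`ω² = x₁ y₁ + ⋯ + x_r y_r` of odd dimension `2 r - 1 ≥ 3` in `ℙ^{2r}`, the ample line bundle `O(1)`
has a nonzero, even nowhere vanishing, morphism to the tangent sheaf, given by the derivation
`∂/∂ω`, and the quadric is not isomorphic to any projective space.
-/

set_option autoImplicit false

open AlgebraicGeometry CategoryTheory

universe u

namespace Pool.Agent.Results.MP_63fcef_ag.QuadricCharTwo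

open Pool.Agent.W5h90.CP

/-- For every field `k` of characteristic two and every `r ≥ 2` there is a smooth projective
variety `X` over `k` of dimension `2 r - 1`, with an ample line bundle `L` and a nonzero (even
nowhere vanishing) morphism `L ⟶ T_X`, such that `X` is not isomorphic over `k` to a projective
space. -/
theorem result (k : Type u) [Field k] [CharP k 2] (r : ℕ) (hr : 2 ≤ r) :
    ∃ (X : Scheme.{u}) (p : X ⟶ Spec (CommRingCat.of k)),
      IsSmoothProjectiveVariety p (2 * r - 1) ∧
      (∃ L : LineBundle X, L.IsAmple ∧ ∃ φ : ToTangent L p, φ.NonZero ∧ φ.NowhereZero) ∧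
      ∀ m : ℕ, ¬ ∃ e : X ≅ PP k m, e.hom ≫ PPstr k m = p := by
  have h0 : 0 < r := by omega
  let c : HS r := Sum.inl ⟨0, h0⟩
  have h1 : IsDomain (QA (hyq k r)) := isDomain_hyq k h0
  have h2 : IsIntegral (XQ k r) := isIntegral_XQ k r h0
  refine ⟨XQ k r, XQs k r, ⟨h2, smooth_hyq k h0, projective_hyq k r⟩,
    ⟨OO1 k r, isAmple_OO1 k r, φX k r, φX_nonZero k r c, φX_nowhereZero k r⟩, ?_⟩
  rintro m ⟨e, he⟩
  have h3 : IsIntegral (PP k m) := isIntegral_PP k m
  exact not_iso hr e he

end Pool.Agent.Results.MP_63fcef_ag.QuadricCharTwo
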